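import Pool.Agent.LibKomH11.Phase2

set_option autoImplicit false

namespace Pool.Agent.Results.MP_c81d26_co.TwoSparse

open Finset

theorem upper (n d : ℕ) (v : Fin n → Fin d → ℝ) (L : ℝ) (hL : 0 ≤ L)
    (hsp : ∀ i, (univ.filter (fun j => v i j ≠ 0)).card ≤ 2) (hv : ∀ i, ∑ j, |v i j| ≤ L) :
    ∃ ε : Fin n → ℝ, (∀ i, ε i = 1 ∨ ε i = -1) ∧ ∀ j : Fin d, |∑ i, ε i * v i j| ≤ L := by
  classical
  let V := Fin d ⊕ Fin 2
  let v' : Fin n → V → ℝ := fun i u => Sum.elim (fun j => v i j) (fun _ => 0) u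
  have hv' : ∀ i, ∑ u, |v' i u| ≤ L := by
    intro i
    have : ∑ u : V, |v' i u| = ∑ j, |v i j| := by
      simp [V, v', Fintype.sum_sum_type]
    rw [this]; exact hv i
  have hsupp : ∀ i, (univ.filter (fun u => v' i u ≠ 0)).card ≤ 2 := by
    intro i
    refine le_trans ?_ (hsp i)
    have : univ.filter (fun u => v' i u ≠ 0) =
        (univ.filter (fun j => v i j ≠ 0)).map ⟨Sum.inl, Sum.inl_injective⟩ := by
      ext u
      simp only [Finset.mem_filter, Finset.mem_univ, true_and, Finset.mem_map,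
        Function.Embedding.coeFn_mk]
      rcases u with j | k
      · constructor
        · intro h; exact ⟨j, h, rfl⟩
        · rintro ⟨j', h, he⟩
          rw [Sum.inl.inj he] at h
          exact h
      · constructor
        · intro h; exact absurd rfl h
        · rintro ⟨j', h, he⟩
          exact absurd he (by simp)
    rw [this, Finset.card_map]
  have hex : ∀ i, ∃ x y : V, x ≠ y ∧ ∀ u, v' i u ≠ 0 → u = x ∨ u = y := by
    intro i
    have hcard : 2 ≤ (univ : Finset V).card := by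
      simp [V]
    obtain ⟨U, hU1, _, hU2⟩ := Finset.exists_subsuperset_card_eq
      (Finset.subset_univ (univ.filter (fun u => v' i u ≠ 0))) (hsupp i) hcard
    obtain ⟨x, y, hxy, hU⟩ := Finset.card_eq_two.mp hU2
    refine ⟨x, y, hxy, ?_⟩
    intro u hu
    have : u ∈ U := hU1 (by simp [hu])
    rw [hU] at this
    simpa using this
  choose x y hxy hcov using hex
  let w : Fin n × Bool → ℝ := fun h => bif h.2 then v' h.1 (x h.1) else v' h.1 (y h.1)
  let f : Fin n × Bool → V := fun h => bif h.2 then x h.1 else y h.1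
  have hw : ∀ i, |w (i, true)| + |w (i, false)| ≤ L := by
    intro i
    refine le_trans ?_ (hv' i)
    have : ∑ u ∈ ({x i, y i} : Finset V), |v' i u| = |w (i, true)| + |w (i, false)| := by
      rw [Finset.sum_pair (hxy i)]
      rfl
    rw [← this]
    exact Finset.sum_le_sum_of_subset_of_nonneg (Finset.subset_univ _)
      (fun _ _ _ => abs_nonneg _)
  obtain ⟨e, he, heu⟩ := Pool.Agent.KomH11.halfedge_signs L hL w hw f
  refine ⟨e, he, ?_⟩
  intro j
  have key : ∑ h ∈ univ.filter (fun h : Fin n × Bool => f h = Sum.inl j), e h.1 * w h =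
      ∑ i, e i * v i j := by
    rw [Finset.sum_filter, Fintype.sum_prod_type]
    refine Finset.sum_congr rfl ?_
    intro i _
    rw [Fintype.sum_bool]
    have ht : f (i, true) = x i := rfl
    have hf : f (i, false) = y i := rfl
    have hwt : w (i, true) = v' i (x i) := rfl
    have hwf : w (i, false) = v' i (y i) := rfl
    have hj : v i j = v' i (Sum.inl j) := rfl
    rw [ht, hf, hwt, hwf, hj]
    by_cases h1 : x i = Sum.inl j
    · have h2 : ¬ y i = Sum.inl j := fun hc => hxy i (h1.trans hc.symm)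
      rw [if_pos h1, if_neg h2, h1, add_zero]
    · by_cases h2 : y i = Sum.inl j
      · rw [if_neg h1, if_pos h2, h2, zero_add]
      · rw [if_neg h1, if_neg h2]
        have : v' i (Sum.inl j) = 0 := by
          by_contra hc
          rcases hcov i _ hc with h | h
          · exact h1 h.symm
          · exact h2 h.symm
        rw [this]; ring
  rw [← key]
  exact heu (Sum.inl j)

theorem l1_le (d : ℕ) (x : Fin d → ℝ) (hx : ∑ j, (x j) ^ 2 ≤ 1)
    (hs : (univ.filter (fun j => x j ≠ 0)).card ≤ 2) : ∑ j, |x j| ≤ Real.sqrt 2 := by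
  have e : ∑ j, |x j| = ∑ j ∈ univ.filter (fun j => x j ≠ 0), 1 * |x j| := by
    rw [Finset.sum_filter]
    refine Finset.sum_congr rfl ?_
    intro j _
    split_ifs with h
    · rw [one_mul]
    · rw [not_not.mp h, abs_zero]
  rw [e]
  apply Real.le_sqrt_of_sq_le
  refine (Finset.sum_mul_sq_le_sq_mul_sq _ _ _).trans ?_
  have h1 : ∑ j ∈ univ.filter (fun j => x j ≠ 0), (1 : ℝ) ^ 2 ≤ 2 := by
    simp only [one_pow, Finset.sum_const, nsmul_eq_mul, mul_one]
    exact_mod_cast hs
  have h2 : ∑ j ∈ univ.filter (fun j => x j ≠ 0), |x j| ^ 2 ≤ 1 := by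
    refine le_trans ?_ hx
    refine le_trans (Finset.sum_le_sum_of_subset_of_nonneg (Finset.filter_subset _ _)
      (fun _ _ _ => sq_nonneg _)) (le_of_eq ?_)
    refine Finset.sum_congr rfl ?_
    intro j _
    rw [sq_abs]
  have h3 : 0 ≤ ∑ j ∈ univ.filter (fun j => x j ≠ 0), |x j| ^ 2 :=
    Finset.sum_nonneg (fun _ _ => sq_nonneg _)
  nlinarith

/-- Vectors with at most two nonzero coordinates can be signed so that every coordinate of
the sum is at most their largest l1 norm; hence for such vectors the optimal constant in the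
Komlos problem is the square root of two. -/
theorem result :
    (∀ (n d : ℕ) (v : Fin n → Fin d → ℝ) (L : ℝ), 0 ≤ L →
      (∀ i, (Finset.univ.filter (fun j => v i j ≠ 0)).card ≤ 2) →
      (∀ i, ∑ j, |v i j| ≤ L) →
      ∃ ε : Fin n → ℝ, (∀ i, ε i = 1 ∨ ε i = -1) ∧
        ∀ j : Fin d, |∑ i, ε i * v i j| ≤ L) ∧
    (∀ (n d : ℕ) (v : Fin n → Fin d → ℝ), (∀ i, ∑ j, (v i j) ^ 2 ≤ 1) →
      (∀ i, (Finset.univ.filter (fun j => v i j ≠ 0)).card ≤ 2) →
      ∃ ε : Fin n → ℝ, (∀ i, ε i = 1 ∨ ε i = -1) ∧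
        ∀ j : Fin d, |∑ i, ε i * v i j| ≤ Real.sqrt 2) ∧
    (∀ c : ℝ, (∀ (n d : ℕ) (v : Fin n → Fin d → ℝ), (∀ i, ∑ j, (v i j) ^ 2 ≤ 1) →
      (∀ i, (Finset.univ.filter (fun j => v i j ≠ 0)).card ≤ 2) →
      ∃ ε : Fin n → ℝ, (∀ i, ε i = 1 ∨ ε i = -1) ∧
        ∀ j : Fin d, |∑ i, ε i * v i j| ≤ c) → Real.sqrt 2 ≤ c) := by
  refine ⟨upper, ?_, ?_⟩
  · intro n d v hv hsp
    exact upper n d v (Real.sqrt 2) (Real.sqrt_nonneg _) hsp
      (fun i => l1_le d (v i) (hv i) (hsp i))
  intro c hc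
  have hs : Real.sqrt 2 * Real.sqrt 2 = 2 := Real.mul_self_sqrt (by norm_num)
  have hs0 : 0 < Real.sqrt 2 := Real.sqrt_pos.mpr (by norm_num)
  obtain ⟨ε, hε, hj⟩ := hc 2 2 (![![Real.sqrt 2 / 2, Real.sqrt 2 / 2],
    ![Real.sqrt 2 / 2, -(Real.sqrt 2 / 2)]]) (by
      intro i
      fin_cases i
      · simp [Fin.sum_univ_two]; nlinarith
      · simp [Fin.sum_univ_two]; nlinarith)
    (by
      intro i
      exact (Finset.card_le_univ _).trans (by simp))
  have h0 := hj 0
  have h1 := hj 1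
  simp only [Fin.sum_univ_two, Matrix.cons_val_zero, Matrix.cons_val_one] at h0 h1
  rcases hε 0 with e0 | e0 <;> rcases hε 1 with e1 | e1
  · rw [e0, e1] at h0
    have := le_abs_self (1 * (Real.sqrt 2 / 2) + 1 * (Real.sqrt 2 / 2))
    linarith
  · rw [e0, e1] at h1
    have := le_abs_self (1 * (Real.sqrt 2 / 2) + -1 * -(Real.sqrt 2 / 2))
    linarith
  · rw [e0, e1] at h1
    have := neg_abs_le (-1 * (Real.sqrt 2 / 2) + 1 * -(Real.sqrt 2 / 2))
    linarith
  · rw [e0, e1] at h0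
    have := neg_abs_le (-1 * (Real.sqrt 2 / 2) + -1 * (Real.sqrt 2 / 2))
    linarith

end Pool.Agent.Results.MP_c81d26_co.TwoSparse
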